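import Mathlib
import Pool.Agent.W23.PP.Defs
set_option autoImplicit false

namespace Pool.Agent.W214.PP

open Finset Polynomial
open Pool.Agent.W23.PP

lemma pow_dvd_aux (p : ℤ) (hp : Prime p) : ∀ (j m : ℕ) (x y : ℤ), p ^ (m + j) ∣ x * y →
    ¬ p ^ (j + 1) ∣ x → p ^ m ∣ y := by
  intro j
  induction j with
  | zero =>
    intro m x y h1 h2
    rw [add_zero] at h1
    rw [zero_add, pow_one] at h2
    exact hp.pow_dvd_of_dvd_mul_left m h2 h1
  | succ j ih =>
    intro m x y h1 h2
    by_cases hx : p ∣ x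
    · obtain ⟨x', rfl⟩ := hx
      refine ih m x' y ?_ ?_
      · have h3 : p * p ^ (m + j) ∣ p * (x' * y) := by
          calc p * p ^ (m + j) = p ^ (m + (j + 1)) := by ring
            _ ∣ p * x' * y := h1
            _ = p * (x' * y) := by ring
        exact (mul_dvd_mul_iff_left hp.ne_zero).mp h3
      · intro h3
        apply h2
        calc p ^ (j + 1 + 1) = p * p ^ (j + 1) := by ring
          _ ∣ p * x' := mul_dvd_mul_left p h3
    · have h3 : p ^ m ∣ x * y := (pow_dvd_pow p (by omega)).trans h1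
      exact hp.pow_dvd_of_dvd_mul_left m hx h3

lemma claim (p : ℕ) (hp : p.Prime) (j : ℕ) (n : ℕ → ℤ) : ∀ (k : ℕ) (F : ℤ[X]) (T : Finset ℕ),
    k + 1 ≤ T.card → F.natDegree ≤ k →
    (∀ s ∈ T, ∀ s' ∈ T, s ≠ s' → ¬ (p : ℤ) ^ (j + 1) ∣ n s - n s') →
    (∀ s ∈ T, (p : ℤ) ^ (k * j + 1) ∣ F.eval (n s)) → C (p : ℤ) ∣ F := by
  have hpp : Prime (p : ℤ) := Nat.prime_iff_prime_int.mp hp
  intro k
  induction k with
  | zero =>
    intro F T hT hF _ hd
    obtain ⟨s, hs⟩ : T.Nonempty := Finset.card_pos.mp (by omega)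
    have h1 := hd s hs
    rw [Polynomial.eq_C_of_natDegree_le_zero hF, Polynomial.eval_C, zero_mul, zero_add,
      pow_one] at h1
    rw [Polynomial.eq_C_of_natDegree_le_zero hF]
    exact _root_.map_dvd C h1
  | succ k ih =>
    intro F T hT hF hinc hd
    obtain ⟨s, hs⟩ : T.Nonempty := Finset.card_pos.mp (by omega)
    obtain ⟨a, ha⟩ : ∃ a, a = n s := ⟨_, rfl⟩
    have hroot : (F - C (F.eval a)).IsRoot a := by simp [Polynomial.IsRoot]
    obtain ⟨G, hG⟩ := Polynomial.dvd_iff_isRoot.mpr hroot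
    have hF' : F = (X - C a) * G + C (F.eval a) := by
      rw [← hG]; ring
    have hGdeg : G.natDegree ≤ k := by
      by_cases hG0 : G = 0
      · rw [hG0]; simp
      · have h1 : ((X - C a) * G).natDegree = (X - C a : ℤ[X]).natDegree + G.natDegree :=
          (Polynomial.monic_X_sub_C a).natDegree_mul' hG0
        rw [← hG, Polynomial.natDegree_X_sub_C, Polynomial.natDegree_sub_C] at h1
        omega
    have hpG : C (p : ℤ) ∣ G := by
      refine ih G (T.erase s) ?_ hGdeg ?_ ?_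
      · rw [Finset.card_erase_of_mem hs]; omega
      · intro u hu u' hu' huu
        exact hinc u (Finset.mem_of_mem_erase hu) u' (Finset.mem_of_mem_erase hu') huu
      · intro u hu
        have hu1 := Finset.mem_of_mem_erase hu
        have hne := Finset.ne_of_mem_erase hu
        have h1 : (n u - a) * G.eval (n u) = F.eval (n u) - F.eval a := by
          have := congrArg (Polynomial.eval (n u)) hG
          simp at this
          linarith
        refine pow_dvd_aux (p : ℤ) hpp j (k * j + 1) (n u - a) _ ?_ ?_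
        · rw [h1]
          have e : k * j + 1 + j = (k + 1) * j + 1 := by ring
          rw [e]
          exact dvd_sub (hd u hu1) (by rw [ha]; exact hd s hs)
        · rw [ha]
          exact hinc u hu1 s hs hne
    have hpa : C (p : ℤ) ∣ C (F.eval a) := by
      apply _root_.map_dvd C
      have h1 := hd s hs
      rw [← ha] at h1
      exact (dvd_pow_self (p : ℤ) (by omega)).trans h1
    rw [hF']
    exact dvd_add (hpG.mul_left _) hpa

theorem POLA : St_POLA := by
  intro k M N hk hN F hprim hdeg hco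
  refine ⟨?_, ?_, ?_, ?_⟩
  · intro m n
    exact Polynomial.sub_dvd_eval_sub m n F
  · intro n
    have hN1 : (1 : ℝ) ≤ N := by exact_mod_cast (by omega : 1 ≤ N)
    have h0 : (1 : ℝ) ≤ 1 + |(n : ℝ)| := by linarith [abs_nonneg (n : ℝ)]
    show |((F.eval n : ℤ) : ℝ)| ≤ _
    rw [Polynomial.eval_eq_sum_range' (Nat.lt_succ_of_le hdeg)]
    push_cast
    refine (Finset.abs_sum_le_sum_abs _ _).trans ?_
    have h1 : ∀ i ∈ range (k + 1), |(F.coeff i : ℝ) * (n : ℝ) ^ i| ≤
        (N : ℝ) ^ M * (1 + |(n : ℝ)|) ^ k := by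
      intro i hi
      rw [abs_mul, abs_pow]
      refine mul_le_mul (hco i) ?_ (by positivity) (by positivity)
      calc |(n : ℝ)| ^ i ≤ (1 + |(n : ℝ)|) ^ i :=
            pow_le_pow_left₀ (abs_nonneg _) (by linarith) i
        _ ≤ (1 + |(n : ℝ)|) ^ k :=
            pow_le_pow_right₀ h0 (Nat.lt_succ_iff.mp (Finset.mem_range.mp hi))
    refine (Finset.sum_le_sum h1).trans ?_
    rw [Finset.sum_const, Finset.card_range, nsmul_eq_mul]
    have h2 : ((k + 1 : ℕ) : ℝ) ≤ (N : ℝ) ^ k := by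
      calc ((k + 1 : ℕ) : ℝ) ≤ ((2 ^ k : ℕ) : ℝ) := by
            exact_mod_cast Nat.lt_two_pow_self
        _ = (2 : ℝ) ^ k := by push_cast; rfl
        _ ≤ (N : ℝ) ^ k := pow_le_pow_left₀ (by norm_num) (by exact_mod_cast hN) k
    calc ((k + 1 : ℕ) : ℝ) * ((N : ℝ) ^ M * (1 + |(n : ℝ)|) ^ k)
        ≤ (N : ℝ) ^ k * ((N : ℝ) ^ M * (1 + |(n : ℝ)|) ^ k) :=
          mul_le_mul_of_nonneg_right h2 (by positivity)
      _ = (N : ℝ) ^ (M + k) * (1 + |(n : ℝ)|) ^ k := by rw [pow_add]; ring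
  · classical
    have hF0 : F ≠ 0 := hprim.ne_zero
    refine ⟨F.roots.toFinset, ?_, ?_⟩
    · exact (Multiset.toFinset_card_le _).trans ((Polynomial.card_roots' F).trans hdeg)
    · intro n hn
      rw [Multiset.mem_toFinset, Polynomial.mem_roots hF0]
      exact hn
  · intro p j hp hj
    obtain ⟨j, rfl⟩ : ∃ j', j = j' + 1 := ⟨j - 1, by omega⟩
    classical
    refine ⟨(range (p ^ (j + 1))).filter (fun s => ∃ n : ℤ, ((p ^ (j + 1) : ℕ) : ℤ) ∣ n - s ∧
      ((p ^ (k * (j + 1 - 1) + 1) : ℕ) : ℤ) ∣ F.eval n), ?_, ?_⟩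
    · by_contra hcard
      push Not at hcard
      obtain ⟨T, hT⟩ : ∃ T : Finset ℕ, T = (range (p ^ (j + 1))).filter (fun s : ℕ => ∃ n : ℤ,
          ((p ^ (j + 1) : ℕ) : ℤ) ∣ n - s ∧
          ((p ^ (k * (j + 1 - 1) + 1) : ℕ) : ℤ) ∣ F.eval n) := ⟨_, rfl⟩
      rw [← hT] at hcard
      have hex : ∀ s : ℕ, ∃ n : ℤ, s ∈ T → ((p ^ (j + 1) : ℕ) : ℤ) ∣ n - s ∧
          ((p ^ (k * (j + 1 - 1) + 1) : ℕ) : ℤ) ∣ F.eval n := by
        intro s
        by_cases hs : s ∈ T
        · rw [hT, Finset.mem_filter] at hs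
          obtain ⟨n, hn⟩ := hs.2
          exact ⟨n, fun _ => hn⟩
        · exact ⟨0, fun h => absurd h hs⟩
      choose n hn using hex
      have hC : C (p : ℤ) ∣ F := by
        refine claim p hp j n k F T hcard hdeg ?_ ?_
        · intro s hs s' hs' hne hdvd
          apply hne
          have h1 := (hn s hs).1
          have h2 := (hn s' hs').1
          push_cast at h1 h2
          have h3 : (p : ℤ) ^ (j + 1) ∣ (s : ℤ) - s' := by
            have h4 : ((s : ℤ) - s') = (n s - n s') - (n s - s) + (n s' - s') := by ring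
            rw [h4]
            exact dvd_add (dvd_sub hdvd h1) h2
          rw [hT, Finset.mem_filter, Finset.mem_range] at hs hs'
          have h5 : (s : ℤ) ≡ s' [ZMOD ((p ^ (j + 1) : ℕ) : ℤ)] := by
            apply Int.ModEq.symm
            rw [Int.modEq_iff_dvd]
            push_cast
            exact h3
          have h6 : s ≡ s' [MOD p ^ (j + 1)] := (Int.natCast_modEq_iff).mp h5
          exact Nat.ModEq.eq_of_lt_of_lt h6 hs.1 hs'.1
        · intro s hs
          have h1 := (hn s hs).2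
          push_cast at h1
          exact h1
      have h1 := hprim (p : ℤ) hC
      rw [Int.isUnit_iff] at h1
      have h2 := hp.two_le
      rcases h1 with h1 | h1 <;> omega
    · intro n hn
      have hpos : (0 : ℤ) < ((p ^ (j + 1) : ℕ) : ℤ) := by
        exact_mod_cast pow_pos hp.pos _
      obtain ⟨s, hs⟩ := Int.eq_ofNat_of_zero_le (Int.emod_nonneg n hpos.ne')
      have hlt : n % ((p ^ (j + 1) : ℕ) : ℤ) < ((p ^ (j + 1) : ℕ) : ℤ) := Int.emod_lt_of_pos n hpos
      have hdv : ((p ^ (j + 1) : ℕ) : ℤ) ∣ n - s := by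
        rw [← hs]
        exact Int.dvd_self_sub_emod
      refine ⟨s, ?_, hdv⟩
      rw [Finset.mem_filter, Finset.mem_range]
      refine ⟨?_, n, hdv, hn⟩
      rw [hs] at hlt
      exact_mod_cast hlt

end Pool.Agent.W214.PP
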